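import Mathlib
import Pool.Agent.H.MP_c1f8f0_an.C

namespace Pool.Agent.Results.MP_5b3867_an.No

open MeasureTheory Metric Pool.Agent.H.MP_c1f8f0_an Pool.Agent.H.MP_435399_an

/-- normalised area measure on the unit disc -/
noncomputable def dA : Measure ℂ := (ENNReal.ofReal Real.pi)⁻¹ • volume.restrict (ball (0 : ℂ) 1)

/-- the operator with kernel `K` applied to `σ f` is bounded from `L²(σ)` to `L²(w)`, tested on
bounded measurable `f` with compact support in the disc (squared norms) -/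
def Bdd (K : ℂ → ℂ → ℂ) (σ w : ℂ → ℝ) : Prop :=
  ∃ C : NNReal, ∀ f : ℂ → ℂ, Measurable f → (∃ M : ℝ, ∀ z, ‖f z‖ ≤ M) →
    (∃ s : ℝ, s < 1 ∧ ∀ z : ℂ, s < ‖z‖ → f z = 0) →
    ∫⁻ z, ‖∫ ζ, f ζ * (σ ζ : ℂ) / K z ζ ∂dA‖ₑ ^ 2 * ENNReal.ofReal (w z) ∂dA ≤
      C * ∫⁻ ζ, ‖f ζ‖ₑ ^ 2 * ENNReal.ofReal (σ ζ) ∂dA

theorem result : ∃ w σ : ℂ → ℝ, (∀ z ∈ ball (0 : ℂ) 1, 0 < w z ∧ 0 < σ z) ∧
    LocallyIntegrableOn w (ball 0 1) ∧ LocallyIntegrableOn σ (ball 0 1) ∧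
    Bdd (fun z ζ => (1 - z * starRingEnd ℂ ζ) ^ 2) σ w ∧
    ¬ Bdd (fun z ζ => ((‖1 - z * starRingEnd ℂ ζ‖ ^ 2 : ℝ) : ℂ)) σ w := by
  have p := Real.pi_pos
  have i : Integrable (fun z : ℂ => phi (‖z‖ ^ 2) + 1) mu := psi_int.add (integrable_const 1)
  have m : Measurable fun z : ℂ => phi (‖z‖ ^ 2) + 1 := (phi_meas.comp (by fun_prop)).add_const 1
  have s0 : ∀ z : ℂ, 0 < phi (‖z‖ ^ 2) + 1 := fun z => by linarith [phi_nonneg (‖z‖ ^ 2)]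
  have h0 : ∀ z ∈ ball (0 : ℂ) 1, 0 ≤ phi (‖z‖ ^ 2) + 1 ∧ phi (‖z‖ ^ 2) + 1 ≤ phi (‖z‖ ^ 2) + 1 :=
    fun z _ => ⟨(s0 z).le, le_rfl⟩
  obtain ⟨q, hq⟩ : ∃ q : NNReal, (q : ℝ) = Real.pi := ⟨⟨_, p.le⟩, rfl⟩
  have q0 : q ≠ 0 := fun e => p.ne' (by rw [← hq, e]; rfl)
  have key : ∀ (K : ℂ → ℂ → ℂ) (C : NNReal) (f : ℂ → ℂ) (σ w : ℂ → ℝ),
      (∫⁻ z, ‖∫ ζ, f ζ * (σ ζ : ℂ) / K z ζ ∂dA‖ₑ ^ 2 * ENNReal.ofReal (w z) ∂dA ≤
        C * ∫⁻ ζ, ‖f ζ‖ₑ ^ 2 * ENNReal.ofReal (σ ζ) ∂dA) ↔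
      ∫⁻ z, ‖∫ ζ, f ζ * (σ ζ : ℂ) / K z ζ ∂mu‖ₑ ^ 2 * ENNReal.ofReal (w z) ∂mu ≤
        (q ^ 2 * C : NNReal) * ∫⁻ ζ, ‖f ζ‖ₑ ^ 2 * ENNReal.ofReal (σ ζ) ∂mu := by
    intro K C f σ w
    simp only [dA, ← hq, ENNReal.ofReal_coe_nnreal, ← ENNReal.coe_inv q0, ← ENNReal.smul_def,
      integral_smul_nnreal_measure, lintegral_smul_measure, NNReal.smul_def, enorm_smul,
      NNReal.enorm_eq, mul_pow, mul_assoc]
    rw [lintegral_const_mul' _ _ (by simp), ENNReal.smul_def, ENNReal.smul_def, smul_eq_mul,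
      smul_eq_mul, mul_left_comm (C : ENNReal),
      ENNReal.mul_le_mul_iff_right (by simpa using q0) (by simp),
      ← ENNReal.mul_le_mul_iff_right (a := (q ^ 2 : NNReal)) (by simpa using q0) (by simp),
      ← mul_assoc, ← mul_assoc, ← ENNReal.coe_pow, ← ENNReal.coe_mul, ← ENNReal.coe_mul, ← mul_pow,
      mul_inv_cancel₀ q0]
    simp
  refine ⟨fun z => 1 - ‖z‖ ^ 2, fun z => phi (‖z‖ ^ 2) + 1, fun z hz => ⟨sub_pos.2 (sq_lt hz), s0 z⟩,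
    (show Continuous fun z : ℂ => 1 - ‖z‖ ^ 2 by fun_prop).locallyIntegrable.locallyIntegrableOn _,
    IntegrableOn.locallyIntegrableOn i, ?_, fun ⟨C, hC⟩ => ?_⟩
  · obtain ⟨M, hM⟩ : ∃ M, M = ∫ z : ℂ, (phi (‖z‖ ^ 2) + 1) ∂mu + 1 := ⟨_, rfl⟩
    have M0 : 0 < M := hM ▸ add_pos_of_nonneg_of_pos (integral_nonneg fun z => (s0 z).le) one_pos
    refine ⟨M.toNNReal, fun f hf ⟨B, hB⟩ _ => (key _ _ _ _ _).2 ((berg
      (ψ := fun s => phi (s ^ 2) + 1) i M0 (by linarith) m h0 hf hB).trans ?_)⟩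
    rw [A_eq (A_int (ψ := fun s => phi (s ^ 2) + 1) i m h0 hf hB) fun z _ => (s0 z).le,
      ← ENNReal.ofReal_coe_nnreal, ← ENNReal.ofReal_mul (by positivity), ← mul_assoc]
    refine ENNReal.ofReal_le_ofReal (mul_le_mul_of_nonneg_right ?_
      (integral_nonneg fun z => mul_nonneg (by positivity) (s0 z).le))
    rw [NNReal.coe_mul, NNReal.coe_pow, hq, Real.coe_toNNReal _ M0.le]
    exact mul_le_mul_of_nonneg_right (by nlinarith [Real.pi_gt_three]) M0.le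
  · refine notPlus m (fun z hz => by linarith [(sig_le z hz).2]) (u := fun z => 1 - ‖z‖ ^ 2)
      (fun z hz => by linarith [sq_lt hz]) ⟨q ^ 2 * C, fun f hf ⟨B, hB⟩ ⟨s, s1, s2⟩ => ?_⟩
    have := (key _ _ _ _ _).1 (hC (fun z => (‖f z‖ : ℂ)) (by fun_prop) ⟨B, by simpa using hB⟩
      ⟨s, s1, fun z hz => by simp [s2 z hz]⟩)
    simp only [← ofReal_norm, Complex.norm_real, norm_norm] at this ⊢
    refine le_trans (le_of_eq (lintegral_congr_ae (aeD.mono fun z hz => ?_))) this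
    have b : ∀ ζ ∈ ball (0 : ℂ) 1, 1 - ‖z‖ ≤ ‖1 - z * starRingEnd ℂ ζ‖ := fun ζ hζ =>
      one_sub_ne z (by simpa using (mem_ball_zero_iff.1 hζ).le)
    have y := sub_pos.2 (mem_ball_zero_iff.1 hz)
    have j : Integrable (fun ζ => ‖f ζ‖ * (phi (‖ζ‖ ^ 2) + 1) / ‖1 - z * starRingEnd ℂ ζ‖ ^ 2) mu :=
      (i.bdd_mul (c := B) hf.norm.aestronglyMeasurable (ae_of_all _ (by simpa using hB))).mul_bdd
        (c := ((1 - ‖z‖) ^ 2)⁻¹) (Measurable.aestronglyMeasurable (by fun_prop))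
        (aeD.mono fun ζ hζ => by
          rw [norm_inv, norm_pow, norm_norm]
          exact inv_anti₀ (by positivity) (pow_le_pow_left₀ y.le (b ζ hζ) 2))
    have n : ∀ ζ, 0 ≤ ‖f ζ‖ * (phi (‖ζ‖ ^ 2) + 1) / ‖1 - z * starRingEnd ℂ ζ‖ ^ 2 := fun ζ =>
      div_nonneg (mul_nonneg (norm_nonneg _) (s0 ζ).le) (by positivity)
    simp only [← Complex.ofReal_mul, ← Complex.ofReal_div, integral_complex_ofReal,
      Complex.norm_real]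
    rw [Real.norm_of_nonneg (integral_nonneg n),
      ofReal_integral_eq_lintegral_ofReal j (ae_of_all _ n)]
    congr 2
    refine lintegral_congr_ae (aeD.mono fun ζ hζ => ?_)
    simp only
    rw [ENNReal.ofReal_div_of_pos (pow_pos (y.trans_le (b ζ hζ)) 2),
      ENNReal.ofReal_mul (norm_nonneg _), ENNReal.ofReal_pow (norm_nonneg _)]

end Pool.Agent.Results.MP_5b3867_an.No
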